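import Mathlib
import Pool.Agent.TH488.HWG.HWC5

set_option autoImplicit false

/-!
The condition (HWC) for Noetherian local domains, of any dimension, with a faithfully flat map to a
localization of an iterated monogenic extension of a Noetherian integrally closed domain.
-/

namespace Pool.Agent.Results.MP_9e3d42_al.MonogenicTowers

universe u

/-- `B = A[x] ≅ A[X]/(p)` for some `x` in `T` and some monic `p` over `A`. -/
def MonogenicStep (T : Type u) [CommRing T] (A B : Subring T) : Prop :=
  ∃ (x : T) (p : Polynomial A), p.Monic ∧
    (∀ b : T, b ∈ B ↔ ∃ q : Polynomial A, Polynomial.aeval x q = b) ∧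
    (∀ q : Polynomial A, Polynomial.aeval x q = 0 ↔ p ∣ q)

/-- `T` is an iterated monogenic extension of its subring `V`: there is a finite chain
`V = A₀ ⊆ A₁ ⊆ ... ⊆ A_c = T` of subrings with `A_i = A_{i-1}[x_i] ≅ A_{i-1}[X]/(p_i)`,
`p_i` monic. -/
def IsMonogenicTower (T : Type u) [CommRing T] (V : Subring T) : Prop :=
  Relation.ReflTransGen (MonogenicStep T) V ⊤

/-- Let `T` be an iterated monogenic extension of a Noetherian integrally closed domain `V`, let `R'`
be a localization of `T`, and let `R` be a Noetherian local domain with a faithfully flat ring map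
`R → R'`. Then `R` satisfies (HWC): every finitely generated torsion-free `R`-module `M` with
`M ⊗ Hom(M, R)` reflexive is free. -/
theorem result (T : Type u) [CommRing T] (V : Subring T) [IsDomain V] [IsNoetherianRing V]
    [IsIntegrallyClosed V] (hV : IsMonogenicTower T V) (S : Submonoid T)
    (R' : Type u) [CommRing R'] [Algebra T R'] [IsLocalization S R']
    (R : Type u) [CommRing R] [IsDomain R] [IsLocalRing R] [IsNoetherianRing R]
    [Algebra R R'] [Module.FaithfullyFlat R R']
    (M : Type u) [AddCommGroup M] [Module R M] [Module.Finite R M]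
    (hM : Submodule.torsion R M = ⊥)
    (hT : Module.IsReflexive R (TensorProduct R M (Module.Dual R M))) :
    Module.Free R M := by
  have htf : ∀ (r : R) (m : M), r • m = 0 → r = 0 ∨ m = 0 := by
    intro r m h
    by_cases hr : r = 0
    · exact Or.inl hr
    · right
      have h1 : m ∈ Submodule.torsion R M :=
        ⟨⟨r, mem_nonZeroDivisors_of_ne_zero hr⟩, h⟩
      rwa [hM, Submodule.mem_bot] at h1
  have hproj : Module.Projective R M := by
    refine Pool.Agent.TH488.HWG.hw_refl (T := T) (V := V) hV S R' M htf ?_
    exact Module.equiv (TensorProduct.comm R M (Module.Dual R M))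
  exact Module.free_of_flat_of_isLocalRing

end Pool.Agent.Results.MP_9e3d42_al.MonogenicTowers
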